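import Pool.Agent.N641.VB.Stm5

set_option autoImplicit false

/-! # Project VB (helper641), leaf UN5 (helper169) -/

namespace Pool.Agent.N169.VB

open FirstOrder FirstOrder.Language Pool.Agent.N641.VB

/-- the formula of the structure which says that a formula of the algebra holds for the codes -/
theorem core (TR5 : S_TR5) {L : FirstOrder.Language.{0, 0}} {M : Type} {n n' r : ℕ}
    (φ : L.Formula (Fin n ⊕ Fin 2)) (ψ : M → L.Formula (Fin n ⊕ Fin 1))
    (κ' : L.Formula (Fin n ⊕ Fin 1 ⊕ Fin r)) (π' : Fin n' → Fin n) (m : ℕ)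
    (ξ : (LM M).Formula (Fin n' ⊕ Fin m × Fin r)) :
    ∃ Θ : L.Formula (Fin n ⊕ Fin m), ∀ (S : L.Structure ℕ) (p : Fin n → ℕ)
      (bo : BooleanAlgebra ℕ) (mu : ℕ → M) (q : Fin n' → ℕ) (g : ℕ → Fin r → ℕ) (f : ℕ → ℕ),
      Dec1 S p φ ψ bo mu f → Back S κ' π' q p g f → ∀ v : Fin m → ℕ,
      (@Formula.Realize L ℕ S _ Θ (Sum.elim p v) ↔
        @Formula.Realize (LM M) ℕ (str bo.le mu) _ ξ (Sum.elim q fun x => g (v x.1) x.2)) := by
  obtain ⟨ξ', hξ⟩ := TR5 L M n φ ψ (Fin n' ⊕ Fin m × Fin r) ξ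
  refine ⟨Formula.iExs (Fin m × Fin r)
    ((ξ'.relabel (Sum.elim (fun a : Fin n => (Sum.inl (Sum.inl a) : (Fin n ⊕ Fin m) ⊕ (Fin m × Fin r)))
      (Sum.elim (fun j => Sum.inl (Sum.inl (π' j))) (fun x => Sum.inr x)))) ⊓
      Formula.iInf (fun i : Fin m => κ'.relabel
        (Sum.elim (fun a : Fin n => (Sum.inl (Sum.inl a) : (Fin n ⊕ Fin m) ⊕ (Fin m × Fin r)))
          (Sum.elim (fun _ => Sum.inl (Sum.inr i)) (fun j => Sum.inr (i, j)))))), ?_⟩
  intro S p bo mu q g f hD hB v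
  letI := S
  have e1 : ∀ t : Fin m × Fin r → ℕ,
      (Sum.elim (Sum.elim p v) t ∘ (Sum.elim (fun a : Fin n =>
        (Sum.inl (Sum.inl a) : (Fin n ⊕ Fin m) ⊕ (Fin m × Fin r)))
      (Sum.elim (fun j => Sum.inl (Sum.inl (π' j))) (fun x => Sum.inr x)))) =
      Sum.elim p (Sum.elim (fun j => p (π' j)) t) := by
    intro t
    funext x
    rcases x with a | j | x <;> rfl
  have e2 : ∀ (t : Fin m × Fin r → ℕ) (i : Fin m),
      (Sum.elim (Sum.elim p v) t ∘ (Sum.elim (fun a : Fin n =>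
        (Sum.inl (Sum.inl a) : (Fin n ⊕ Fin m) ⊕ (Fin m × Fin r)))
          (Sum.elim (fun _ : Fin 1 => Sum.inl (Sum.inr i)) (fun j => Sum.inr (i, j))))) =
      Sum.elim p (Sum.elim (fun _ : Fin 1 => v i) (fun j => t (i, j))) := by
    intro t i
    funext x
    rcases x with a | j | x <;> rfl
  rw [Formula.realize_iExs]
  have e3 : ∀ t : Fin m × Fin r → ℕ, (∀ i j, g (v i) j = f (t (i, j))) →
      (fun a => f ((Sum.elim (fun j => p (π' j)) t : Fin n' ⊕ Fin m × Fin r → ℕ) a)) =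
        Sum.elim q fun x => g (v x.1) x.2 := by
    intro t ht
    funext x
    rcases x with j | ⟨i, j⟩
    · exact hB.par j
    · exact (ht i j).symm
  constructor
  · rintro ⟨t, ht⟩
    rw [Formula.realize_inf, Formula.realize_relabel, Formula.realize_iInf, e1] at ht
    obtain ⟨h1, h2⟩ := ht
    have h3 : ∀ i j, g (v i) j = f (t (i, j)) := by
      intro i
      have h4 := h2 i
      rw [Formula.realize_relabel, e2] at h4
      exact (hB.comp _ _).1 h4
    have h5 := (hξ S p bo mu f hD _).1 h1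
    rw [e3 t h3] at h5
    exact h5
  · intro h
    have hsurj : ∀ x : Fin m × Fin r, ∃ s : ℕ, f s = g (v x.1) x.2 := fun x => hD.surj _
    choose t ht using hsurj
    have h3 : ∀ i j, g (v i) j = f (t (i, j)) := fun i j => (ht (i, j)).symm
    refine ⟨t, ?_⟩
    rw [Formula.realize_inf, Formula.realize_relabel, Formula.realize_iInf, e1]
    refine ⟨?_, ?_⟩
    · apply (hξ S p bo mu f hD _).2
      rw [e3 t h3]
      exact h
    · intro i
      rw [Formula.realize_relabel, e2]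
      exact (hB.comp _ _).2 (h3 i)

theorem UN5 (TR5 : S_TR5) : S_UN5 := by
  intro L M n n' r φ ψ δ ρ ρ' γ γ' κ π κ' π' S S' bo bo' mu mu' q q' p p' g g' f f' h h' hb hb' heq
  have hD : Dec1 S p φ ψ bo mu f := ⟨h.surj, h.le, h.val⟩
  have hD' : Dec1 S' p' φ ψ bo' mu' f' := ⟨h'.surj, h'.le, h'.val⟩
  refine ⟨h'.inj, h'.surj, h'.uni, ?_, ?_, h'.le, h'.val, h'.comp, h'.par⟩
  · intro l R v
    obtain ⟨Θ, hΘ⟩ := core TR5 φ ψ κ' π' l (ρ l R)
    have key : ∀ (T : L.Structure ℕ) (z : Fin n → ℕ), @Formula.Realize L ℕ T _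
        (Formula.iAlls (Fin l) ((R.formula (fun i => (Term.var (Sum.inr i) :
          L.Term (Fin n ⊕ Fin l)))).iff Θ)) z ↔
        ∀ w : Fin l → ℕ, (@Structure.RelMap L ℕ T l R w ↔
          @Formula.Realize L ℕ T _ Θ (Sum.elim z w)) := by
      intro T z
      letI := T
      rw [Formula.realize_iAlls]
      refine forall_congr' (fun w => ?_)
      rw [Formula.realize_iff, Formula.realize_rel]
      exact Iff.rfl
    have h1 : ∀ w : Fin l → ℕ, (@Structure.RelMap L ℕ S l R w ↔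
          @Formula.Realize L ℕ S _ Θ (Sum.elim p w)) := by
      intro w
      rw [hΘ S p bo mu q g f hD hb w]
      exact (h.rel l R w).symm
    have h2 := (key S' p').1 ((heq _).1 ((key S p).2 h1))
    rw [h2 v]
    exact (hΘ S' p' bo' mu' q' g' f' hD' hb' v).symm
  · intro l F v
    obtain ⟨Θ, hΘ⟩ := core TR5 φ ψ κ' π' (l + 1) (γ l F)
    have key : ∀ (T : L.Structure ℕ) (z : Fin n → ℕ), @Formula.Realize L ℕ T _
        (Formula.iAlls (Fin (l + 1)) ((Term.equal (Term.func F (fun i => (Term.var (Sum.inr i.castSucc) :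
          L.Term (Fin n ⊕ Fin (l + 1))))) (Term.var (Sum.inr (Fin.last l)))).iff Θ)) z ↔
        ∀ w : Fin (l + 1) → ℕ, (@Structure.funMap L ℕ T l F (fun i => w i.castSucc) = w (Fin.last l) ↔
          @Formula.Realize L ℕ T _ Θ (Sum.elim z w)) := by
      intro T z
      letI := T
      rw [Formula.realize_iAlls]
      refine forall_congr' (fun w => ?_)
      rw [Formula.realize_iff, Formula.realize_equal]
      exact Iff.rfl
    have h1 : ∀ w : Fin (l + 1) → ℕ, (@Structure.funMap L ℕ S l F (fun i => w i.castSucc) = w (Fin.last l) ↔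
          @Formula.Realize L ℕ S _ Θ (Sum.elim p w)) := by
      intro w
      rw [hΘ S p bo mu q g f hD hb w]
      exact (h.fun_ l F w).symm
    have h2 := (key S' p').1 ((heq _).1 ((key S p).2 h1))
    rw [h2 v]
    exact (hΘ S' p' bo' mu' q' g' f' hD' hb' v).symm

end Pool.Agent.N169.VB
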